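import Pool.Agent.Helper562.SlicedFamily

namespace Pool.Agent.Results.MP_06cdda_gt.KnotDiagram

open Pool.Agent.Helper562.Sliced

/-- Sanity check of the definitions: the closure of the braid `σ₁³`, the right-handed trefoil, is a
knot of determinant `3` and signature `-2`. -/
theorem trefoil_check :
    IsKnot [.cup 0, .cup 1, .cross 0 1, .cross 0 1, .cross 0 1, .cap 1, .cap 0] ∧
    ∃ (o : ℕ → ℕ → ℤ) (A : Matrix (Fin 1) (Fin 1) ℤ),
      IsOrientation [.cup 0, .cup 1, .cross 0 1, .cross 0 1, .cross 0 1, .cap 1, .cap 0] o ∧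
      IsGoeritzMatrix [.cup 0, .cup 1, .cross 0 1, .cross 0 1, .cross 0 1, .cap 1, .cap 0] A ∧
      |A.det| = 3 ∧ matrixSignature A -
        correction [.cup 0, .cup 1, .cross 0 1, .cross 0 1, .cross 0 1, .cap 1, .cap 0] o = -2 :=
  ⟨trefoil_isKnot, trefoil_det_signature⟩

/-- For every `n = 4 k + 1` with `k ≥ 1` there is a knot of determinant `n` and signature `4`: a
knot diagram `w` with orientation `o` and Goeritz matrix `A` such that `|det A| = n` and the
signature of `A` minus the Gordon-Litherland correction is `4`. Moreover no crossing is of type II,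
so the black checkerboard surface is an oriented spanning surface of the knot and `A` is its
symmetrised Seifert matrix. -/
theorem result (k : ℕ) (hk : 1 ≤ k) :
    ∃ (w : List Piece) (o : ℕ → ℕ → ℤ) (A : Matrix (Fin 4) (Fin 4) ℤ),
      IsKnot w ∧ IsOrientation w o ∧ IsGoeritzMatrix w A ∧
      |A.det| = 4 * (k : ℤ) + 1 ∧ matrixSignature A - correction w o = 4 ∧
      ∀ t : Fin w.length, typeTwo (w.get t) (o t) = 0 :=
  main k hk

end Pool.Agent.Results.MP_06cdda_gt.KnotDiagram
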