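import Mathlib

namespace Pool.Agent.Results.MP_06cdda_gt.SeifertForm

open Matrix

/-- the signature of a symmetric integer matrix -/
noncomputable def signature {m : ℕ} (A : Matrix (Fin m) (Fin m) ℤ) : ℤ :=
  (sigPos (A.map (Int.cast : ℤ → ℝ)).toQuadraticForm' : ℤ) -
    (sigNeg (A.map (Int.cast : ℤ → ℝ)).toQuadraticForm' : ℤ)

theorem sig_of_posDef {m : ℕ} (Q : QuadraticForm ℝ (Fin m → ℝ)) (hQ : Q.PosDef) :
    sigPos Q = m ∧ sigNeg Q = 0 := by
  have h1 : m ≤ sigPos Q := by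
    have := le_sigPos_of_posDef Q (V := ⊤) (by
      intro x hx
      rw [QuadraticMap.restrict_apply]
      exact hQ _ (by simpa using hx))
    simpa using this
  have h2 : sigPos Q ≤ m := by
    have := sigPos_le_finrank Q
    simpa using this
  have h3 := QuadraticForm.sigPos_add_sigNeg_add_radical (Q := Q)
  rw [Module.finrank_fin_fun] at h3
  omega

theorem toQuadraticForm'_apply {m : ℕ} (A : Matrix (Fin m) (Fin m) ℝ) (x : Fin m → ℝ) :
    A.toQuadraticForm' x = ∑ i, ∑ j, x i * A i j * x j := by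
  simp [Matrix.toQuadraticForm', Matrix.toLinearMap₂'_apply]
  refine Finset.sum_congr rfl fun i _ => Finset.sum_congr rfl fun j _ => ?_
  ring

theorem signature_four (a x z g y n : ℤ) (ha : 1 ≤ a) (hv : 0 < (4 * a - 1) * x - g ^ 2)
    (hn : n = 4 * z * ((4 * a - 1) * x - g ^ 2) - (4 * a - 1) * y ^ 2) (hn0 : 0 < n)
    (A : Matrix (Fin 4) (Fin 4) ℤ)
    (hA : A = !![2, 1, 0, 0; 1, 2 * a, g, 0; 0, g, 2 * x, y; 0, 0, y, 2 * z]) :
    signature A = 4 := by
  have hpos : ((A.map (Int.cast : ℤ → ℝ)).toQuadraticForm').PosDef := by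
    intro f hf
    rw [toQuadraticForm'_apply, hA]
    simp only [Fin.sum_univ_four, Matrix.map_apply]
    simp
    set q : ℝ := 4 * a - 1 with hq
    set v : ℝ := q * x - g ^ 2 with hvdef
    have hq0 : 0 < q := by
      have : (1 : ℝ) ≤ a := by exact_mod_cast ha
      rw [hq]; linarith
    have hv0 : 0 < v := by
      have : (0 : ℝ) < (((4 * a - 1) * x - g ^ 2 : ℤ) : ℝ) := by exact_mod_cast hv
      push_cast at this
      rw [hvdef, hq]; exact this
    have hnR : (n : ℝ) = 4 * z * v - q * y ^ 2 := by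
      rw [hn]; push_cast; rw [hvdef, hq]
    have hn0R : (0 : ℝ) < n := by exact_mod_cast hn0
    have key : 2 * q * v * (f 0 * 2 * f 0 + f 0 * f 1 + (f 1 * f 0 + f 1 * (2 * ↑a) * f 1 + f 1 * ↑g * f 2) +
      (f 2 * ↑g * f 1 + f 2 * (2 * ↑x) * f 2 + f 2 * ↑y * f 3) + (f 3 * ↑y * f 2 + f 3 * (2 * ↑z) * f 3))
       = q * v * (2 * f 0 + f 1) ^ 2 + v * (q * f 1 + 2 * g * f 2) ^ 2
        + (2 * v * f 2 + q * y * f 3) ^ 2 + q * n * f 3 ^ 2 := by
      rw [hnR, hvdef, hq]; ring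
    have hqv : 0 < 2 * q * v := by positivity
    by_contra hcon
    push Not at hcon
    have h1 : q * v * (2 * f 0 + f 1) ^ 2 + v * (q * f 1 + 2 * g * f 2) ^ 2
        + (2 * v * f 2 + q * y * f 3) ^ 2 + q * n * f 3 ^ 2 ≤ 0 := by
      rw [← key]
      exact mul_nonpos_of_nonneg_of_nonpos hqv.le hcon
    have e1 : 0 ≤ q * v * (2 * f 0 + f 1) ^ 2 := by positivity
    have e2 : 0 ≤ v * (q * f 1 + 2 * g * f 2) ^ 2 := by positivity
    have e3 : 0 ≤ (2 * v * f 2 + q * y * f 3) ^ 2 := by positivity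
    have e4 : 0 ≤ q * n * f 3 ^ 2 := by positivity
    have z4 : q * n * f 3 ^ 2 = 0 := by linarith
    have z3 : (2 * v * f 2 + q * y * f 3) ^ 2 = 0 := by linarith
    have z2 : v * (q * f 1 + 2 * g * f 2) ^ 2 = 0 := by linarith
    have z1 : q * v * (2 * f 0 + f 1) ^ 2 = 0 := by linarith
    have f3 : f 3 = 0 := by
      have : f 3 ^ 2 = 0 := by
        rcases mul_eq_zero.mp z4 with h | h
        · exact absurd h (by positivity)
        · exact h
      exact pow_eq_zero_iff (two_ne_zero) |>.mp this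
    have f2 : f 2 = 0 := by
      have := pow_eq_zero_iff (two_ne_zero) |>.mp z3
      rw [f3] at this
      have h' : 2 * v * f 2 = 0 := by linarith
      rcases mul_eq_zero.mp h' with h | h
      · exact absurd h (by positivity)
      · exact h
    have f1 : f 1 = 0 := by
      have h' : (q * f 1 + 2 * g * f 2) ^ 2 = 0 := by
        rcases mul_eq_zero.mp z2 with h | h
        · exact absurd h (by positivity)
        · exact h
      have := pow_eq_zero_iff (two_ne_zero) |>.mp h'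
      rw [f2] at this
      have h'' : q * f 1 = 0 := by linarith
      rcases mul_eq_zero.mp h'' with h | h
      · exact absurd h (by positivity)
      · exact h
    have f0 : f 0 = 0 := by
      have h' : (2 * f 0 + f 1) ^ 2 = 0 := by
        rcases mul_eq_zero.mp z1 with h | h
        · exact absurd h (by positivity)
        · exact h
      have := pow_eq_zero_iff (two_ne_zero) |>.mp h'
      rw [f1] at this
      linarith
    apply hf
    funext i
    fin_cases i <;> simp [f0, f1, f2, f3]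
  obtain ⟨h1, h2⟩ := sig_of_posDef _ hpos
  simp [signature, h1, h2]

theorem exists_aux (p : ℕ) (hp : p.Prime) (hp4 : p % 4 = 1) :
    ∃ q : ℕ, q.Prime ∧ q % 4 = 3 ∧ ∃ g : ℕ, g % 2 = 1 ∧ q ∣ p + g ^ 2 := by
  have : Fact p.Prime := ⟨hp⟩
  have hp2 : p ≠ 2 := by rintro rfl; simp at hp4
  obtain ⟨u, hu⟩ : ∃ u : ZMod p, ¬ IsSquare u := by
    apply FiniteField.exists_nonsquare
    rw [ZMod.ringChar_zmod_n]
    exact hp2
  have hcop : Nat.Coprime 4 p := by
    rw [Nat.coprime_comm]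
    have : Nat.Coprime p (2 ^ 2) := Nat.Coprime.pow_right 2 ((Nat.coprime_primes hp Nat.prime_two).mpr hp2)
    simpa using this
  obtain ⟨m, hm4, hmp⟩ := Nat.chineseRemainder hcop 3 u.val
  have hmu : (m : ZMod p) = u := by
    have : (m : ZMod p) = ((u.val : ℕ) : ZMod p) := (ZMod.natCast_eq_natCast_iff _ _ _).mpr hmp
    rw [this, ZMod.natCast_zmod_val]
  have hm4' : m % 4 = 3 := hm4
  have hmcop : m.Coprime (4 * p) := by
    apply Nat.Coprime.mul_right
    · have h2 : Nat.Coprime m (2 ^ 2) := by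
        apply Nat.Coprime.pow_right
        rw [Nat.coprime_two_right, Nat.odd_iff]
        omega
      simpa using h2
    · rw [Nat.coprime_comm, hp.coprime_iff_not_dvd]
      intro hdvd
      apply hu
      rw [← hmu, (ZMod.natCast_eq_zero_iff m p).mpr hdvd]
      exact IsSquare.zero
  obtain ⟨q, hqgt, hq, hqm⟩ := Nat.forall_exists_prime_gt_and_modEq p (q := 4 * p) (a := m)
    (by have := hp.pos; omega) hmcop
  have hq4 : q % 4 = 3 := by
    have : q ≡ m [MOD 4] := hqm.of_dvd (Dvd.intro _ rfl)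
    rw [this]
    exact hm4'
  have hqu : (q : ZMod p) = u := by
    rw [← hmu]
    exact (ZMod.natCast_eq_natCast_iff _ _ _).mpr (hqm.of_dvd (Dvd.intro_left _ rfl))
  have : Fact q.Prime := ⟨hq⟩
  have hq2 : q ≠ 2 := by rintro rfl; simp at hq4
  have hns : ¬ IsSquare (p : ZMod q) := by
    rw [← ZMod.exists_sq_eq_prime_iff_of_mod_four_eq_one hp4 hq2, hqu]
    exact hu
  have hns1 : ¬ IsSquare (-1 : ZMod q) := by
    rw [ZMod.exists_sq_eq_neg_one_iff]
    omega
  have hsq : IsSquare (-(p : ZMod q)) := by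
    have h0 : (p : ZMod q) ≠ 0 := by
      intro h
      apply hns
      rw [h]
      exact IsSquare.zero
    have hchar : ringChar (ZMod q) ≠ 2 := by rw [ZMod.ringChar_zmod_n]; exact hq2
    have h1 : quadraticChar (ZMod q) (p : ZMod q) = -1 :=
      (quadraticChar_neg_one_iff_not_isSquare).mpr hns
    have h2 : quadraticChar (ZMod q) (-1) = -1 :=
      (quadraticChar_neg_one_iff_not_isSquare).mpr hns1
    have h3 : quadraticChar (ZMod q) (-(p : ZMod q)) = 1 := by
      rw [neg_eq_neg_one_mul, map_mul, h1, h2]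
      norm_num
    exact (quadraticChar_one_iff_isSquare (neg_ne_zero.mpr h0)).mp h3
  obtain ⟨r, hr⟩ := hsq
  have key : ∀ g : ℕ, (g : ZMod q) = r ∨ (g : ZMod q) = -r → q ∣ p + g ^ 2 := by
    intro g hg
    rw [← ZMod.natCast_eq_zero_iff]
    push_cast
    have : (g : ZMod q) ^ 2 = r * r := by
      rcases hg with hg | hg <;> rw [hg] <;> ring
    rw [this, ← hr]
    ring
  refine ⟨q, hq, hq4, ?_⟩
  have hrval : ((r.val : ℕ) : ZMod q) = r := ZMod.natCast_zmod_val r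
  rcases Nat.even_or_odd r.val with he | ho
  · refine ⟨r.val + q, ?_, key _ (Or.inl ?_)⟩
    · have := Nat.even_iff.mp he
      omega
    · push_cast
      rw [hrval]
      simp
  · exact ⟨r.val, Nat.odd_iff.mp ho, key _ (Or.inl hrval)⟩

theorem exists_params (n : ℕ) (hn : n % 4 = 1) (h5 : 5 ≤ n) :
    ∃ a x z g y : ℤ, 1 ≤ a ∧ Odd g ∧ Odd y ∧ 0 < (4 * a - 1) * x - g ^ 2 ∧
      (n : ℤ) = 4 * z * ((4 * a - 1) * x - g ^ 2) - (4 * a - 1) * y ^ 2 := by
  by_cases h : ∃ d, d ∣ n ∧ d % 4 = 3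
  · obtain ⟨d, ⟨e, rfl⟩, hd⟩ := h
    have he : e % 4 = 3 := by
      have h1 : d * e % 4 = (d % 4) * (e % 4) % 4 := Nat.mul_mod _ _ _
      rw [hn, hd] at h1
      have : e % 4 < 4 := Nat.mod_lt _ (by norm_num)
      have h3 : e % 4 = 0 ∨ e % 4 = 1 ∨ e % 4 = 2 ∨ e % 4 = 3 := by omega
      rcases h3 with h3 | h3 | h3 | h3 <;> rw [h3] at h1 <;> omega
    obtain ⟨d', rfl⟩ : ∃ d', d = 4 * d' + 3 := ⟨d / 4, by omega⟩
    obtain ⟨e', rfl⟩ : ∃ e', e = 4 * e' + 3 := ⟨e / 4, by omega⟩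
    refine ⟨d' + 1, (e' + 1) + (4 * d' + 3), 1, 4 * d' + 3, 1, ?_, ?_, ?_, ?_, ?_⟩
    · omega
    · exact ⟨2 * d' + 1, by ring⟩
    · exact odd_one
    · have : (4 * ((d' : ℤ) + 1) - 1) * ((e' + 1) + (4 * d' + 3)) - (4 * d' + 3) ^ 2
        = (4 * d' + 3) * (e' + 1) := by ring
      rw [this]
      positivity
    · push_cast
      ring
  · push Not at h
    obtain ⟨p, hp, hpn⟩ := Nat.exists_prime_and_dvd (n := n) (by omega)
    have hp4 : p % 4 = 1 := by
      have h1 := h p hpn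
      have h2 : p % 2 = 1 := by
        rcases hp.eq_two_or_odd with h2 | h2
        · subst h2
          omega
        · exact h2
      omega
    obtain ⟨m, rfl⟩ := hpn
    have hm4 : m % 4 = 1 := by
      have h1 : p * m % 4 = (p % 4) * (m % 4) % 4 := Nat.mul_mod _ _ _
      rw [hn, hp4] at h1
      omega
    obtain ⟨q, hq, hq4, g, hg, x, hx⟩ := exists_aux p hp hp4
    obtain ⟨p', rfl⟩ : ∃ p', p = 4 * p' + 1 := ⟨p / 4, by omega⟩
    obtain ⟨m', rfl⟩ : ∃ m', m = 4 * m' + 1 := ⟨m / 4, by omega⟩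
    obtain ⟨q', rfl⟩ : ∃ q', q = 4 * q' + 3 := ⟨q / 4, by omega⟩
    have hx' : ((4 * ((q' : ℤ) + 1) - 1) * x - g ^ 2) = 4 * p' + 1 := by
      have := congrArg (Nat.cast : ℕ → ℤ) hx
      push_cast at this
      linear_combination -this
    refine ⟨q' + 1, x, m' + (4 * q' + 3) * p' + (q' + 1), g, 4 * p' + 1, ?_, ?_, ?_, ?_, ?_⟩
    · omega
    · exact (Int.odd_iff.mpr (by omega))
    · exact ⟨2 * p', by ring⟩
    · rw [hx']; positivity
    · rw [hx']
      push_cast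
      ring

/-- For every `n = 4 k + 1`, `k ≥ 1`, there is an integer matrix `V` with `det (V - Vᵀ) = 1`
(a Seifert matrix of a genus two knot) such that `V + Vᵀ` has determinant `± n` and
signature `4`. -/
theorem result (k : ℕ) (hk : 1 ≤ k) :
    ∃ V : Matrix (Fin 4) (Fin 4) ℤ,
      (V - Vᵀ).det = 1 ∧ |(V + Vᵀ).det| = 4 * (k : ℤ) + 1 ∧ signature (V + Vᵀ) = 4 := by
  obtain ⟨a, x, z, g, y, ha, _, ⟨w, hw⟩, hv, hn⟩ :=
    exists_params (4 * k + 1) (by omega) (by omega)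
  subst hw
  push_cast at hn
  have hV : (!![1, 1, 0, 0; 0, a, g, 0; 0, 0, x, w + 1; 0, 0, w, z] : Matrix (Fin 4) (Fin 4) ℤ)
      + (!![1, 1, 0, 0; 0, a, g, 0; 0, 0, x, w + 1; 0, 0, w, z] : Matrix (Fin 4) (Fin 4) ℤ)ᵀ
      = !![2, 1, 0, 0; 1, 2 * a, g, 0; 0, g, 2 * x, 2 * w + 1; 0, 0, 2 * w + 1, 2 * z] := by
    ext i j
    fin_cases i <;> fin_cases j <;> simp <;> ring
  have hJ : (!![1, 1, 0, 0; 0, a, g, 0; 0, 0, x, w + 1; 0, 0, w, z] : Matrix (Fin 4) (Fin 4) ℤ)
      - (!![1, 1, 0, 0; 0, a, g, 0; 0, 0, x, w + 1; 0, 0, w, z] : Matrix (Fin 4) (Fin 4) ℤ)ᵀ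
      = !![0, 1, 0, 0; -1, 0, g, 0; 0, -g, 0, 1; 0, 0, -1, 0] := by
    ext i j
    fin_cases i <;> fin_cases j <;> simp
  refine ⟨!![1, 1, 0, 0; 0, a, g, 0; 0, 0, x, w + 1; 0, 0, w, z], ?_, ?_, ?_⟩
  · rw [hJ]
    simp [Matrix.det_succ_row_zero, Fin.sum_univ_succ, Fin.succAbove, Matrix.submatrix]
  · rw [hV]
    have hdet : (!![2, 1, 0, 0; 1, 2 * a, g, 0; 0, g, 2 * x, 2 * w + 1; 0, 0, 2 * w + 1, 2 * z] :
        Matrix (Fin 4) (Fin 4) ℤ).det = 4 * k + 1 := by
      rw [hn]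
      simp [Matrix.det_succ_row_zero, Fin.sum_univ_succ, Fin.succAbove, Matrix.submatrix]
      ring
    rw [hdet, abs_of_pos (by positivity)]
  · rw [hV]
    exact signature_four a x z g (2 * w + 1) (4 * k + 1) ha hv hn (by positivity) _ rfl

end Pool.Agent.Results.MP_06cdda_gt.SeifertForm
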